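import Pool.Agent.W434.BW.StmC

/-!
# BW-MIN: a minimal idempotent image
-/

set_option autoImplicit false

namespace Pool.Agent.W103.BW

open Pool.Agent.W434.BW

/-- In a finite set of maps some iterate is idempotent. -/
theorem exists_idem {K : Type} [Finite K] (e : K → K) :
    ∃ n, 1 ≤ n ∧ ∀ x, e^[n] (e^[n] x) = e^[n] x := by
  obtain ⟨i, j, hij, h⟩ := Finite.exists_ne_map_eq_of_infinite (fun k : ℕ => e^[k])
  have key : ∀ i j : ℕ, i < j → e^[i] = e^[j] →
      ∃ n, 1 ≤ n ∧ ∀ x, e^[n] (e^[n] x) = e^[n] x := by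
    intro i j hij h
    obtain ⟨d, rfl⟩ : ∃ d, j = i + d := ⟨j - i, by omega⟩
    have hd : 1 ≤ d := by omega
    have h1 : ∀ s, e^[s + i + d] = e^[s + i] := by
      intro s
      rw [Nat.add_assoc, Function.iterate_add, ← h, ← Function.iterate_add]
    have h2 : ∀ m s, e^[s + i + d * m] = e^[s + i] := by
      intro m
      induction m with
      | zero => intro s; rfl
      | succ m ih =>
        intro s
        have e1 : s + i + d * (m + 1) = (s + d * m) + i + d := by ring
        rw [e1, h1]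
        have e2 : s + d * m + i = s + i + d * m := by ring
        rw [e2, ih]
    refine ⟨d * (i + 1), Nat.mul_pos hd (Nat.succ_pos i), fun x => ?_⟩
    have hle : i ≤ d * (i + 1) := by nlinarith
    have h3 := h2 (i + 1) (d * (i + 1) - i)
    have e3 : d * (i + 1) - i + i = d * (i + 1) := by omega
    rw [e3] at h3
    rw [← Function.iterate_add_apply, h3]
  rcases Nat.lt_or_gt_of_ne hij with h' | h'
  · exact key i j h' h
  · exact key j i h' h.symm

theorem minimg : S_minimg := by
  intro K Q _ φ M hid hcomp _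
  -- a map with minimal range
  obtain ⟨e, heM, hmin⟩ : ∃ e ∈ M, ∀ f ∈ M, (Set.range e).ncard ≤ (Set.range f).ncard := by
    have hex : ∃ n : ℕ, ∃ e ∈ M, (Set.range e).ncard = n := ⟨_, _, hid, rfl⟩
    classical
    obtain ⟨e, heM, he⟩ := Nat.find_spec hex
    refine ⟨e, heM, fun f hf => ?_⟩
    rw [he]
    exact Nat.find_min' hex ⟨f, hf, rfl⟩
  obtain ⟨n, hn, hidem⟩ := exists_idem e
  have hit : ∀ k, e^[k] ∈ M := by
    intro k
    induction k with
    | zero => exact hid
    | succ k ih => exact hcomp _ ih _ heM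
  have hsub : Set.range (e^[n]) ⊆ Set.range e := by
    rintro _ ⟨x, rfl⟩
    obtain ⟨m, rfl⟩ : ∃ m, n = m + 1 := ⟨n - 1, by omega⟩
    rw [Function.iterate_succ_apply']
    exact ⟨_, rfl⟩
  have hle : (Set.range (e^[n])).ncard ≤ (Set.range e).ncard :=
    Set.ncard_le_ncard hsub (Set.toFinite _)
  generalize hE : e^[n] = E at *
  have hEM : E ∈ M := hE ▸ hit n
  refine ⟨E, hEM, hidem, fun f hf x y hx hy hxy => ?_⟩
  have hg : (fun x => E (f (E x))) ∈ M := hcomp E hEM _ (hcomp f hf E hEM)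
  have hr1 : Set.range (fun x => E (f (E x))) = (fun x => E (f x)) '' Set.range E := by
    ext z
    constructor
    · rintro ⟨w, rfl⟩
      exact ⟨E w, ⟨w, rfl⟩, rfl⟩
    · rintro ⟨_, ⟨w, rfl⟩, rfl⟩
      exact ⟨w, rfl⟩
  have hr2 : Set.range (fun x => E (f (E x))) ⊆ Set.range E := by
    rintro _ ⟨w, rfl⟩
    exact ⟨_, rfl⟩
  have hc : ((fun x => E (f x)) '' Set.range E).ncard = (Set.range E).ncard := by
    rw [← hr1]
    refine le_antisymm (Set.ncard_le_ncard hr2 (Set.toFinite _)) ?_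
    exact le_trans hle (hmin _ hg)
  have hinj := Set.injOn_of_ncard_image_eq hc (Set.toFinite _)
  exact hinj ⟨x, hx⟩ ⟨y, hy⟩ hxy

end Pool.Agent.W103.BW
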